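import Mathlib
import Pool.Agent.Helper48_LPY.Stmts
import Pool.Agent.Helper48_LPY.Basic

/-!
# LPY: CONL, lower tail for the flexible nodes
-/

set_option autoImplicit false

namespace Pool.Agent.LPY.H76

open Pool.Agent.LAX Pool.Agent.LPY

/-- Convexity of the exponential function. -/
lemma exp_chord {x M X : ℝ} (hM : 0 < M) (h0 : 0 ≤ X) (h1 : X ≤ M) :
    Real.exp (x * X) ≤ 1 + X * ((Real.exp (x * M) - 1) / M) := by
  have ha : 0 ≤ 1 - X / M := by
    rw [sub_nonneg, div_le_one hM]
    exact h1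
  have hb : 0 ≤ X / M := by positivity
  have hab : (1 - X / M) + X / M = 1 := by ring
  have hc := convexOn_exp.2 (Set.mem_univ (0 : ℝ)) (Set.mem_univ (x * M)) ha hb hab
  simp only [smul_eq_mul, mul_zero, zero_add, Real.exp_zero, mul_one] at hc
  have h2 : X / M * (x * M) = x * X := by
    field_simp
  rw [h2] at hc
  refine hc.trans (le_of_eq ?_)
  field_simp
  ring

lemma ncard_sum {ι : Type} [Fintype ι] (s : Set ι) :
    (s.ncard : ℝ) = ∑ p, s.indicator (fun _ => (1 : ℝ)) p := by
  classical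
  simp only [Set.indicator_apply]
  rw [Finset.sum_boole, Set.filter_mem_univ_eq_toFinset, Set.ncard_eq_toFinset_card']

/-- One block. -/
lemma one_block (h2 : MarfStmt) (h3 : CnbStmt) {V : Type} [Fintype V] [DecidableEq V]
    {σ : Equiv.Perm V} {a : ℕ} (B : BS σ (2 ^ a)) (ha : 20 ≤ a) (hσ : Cyc σ (2 ^ a)) (f : V)
    (b : V × Lab → ℝ) (hb : ∀ p, 0 ≤ b p ∧ b p ≤ 1) (hf : ∀ p, B.st p.1 ≠ f → b p = 0) :
    ∑ ω : V → Om a, Real.exp (-(8 * th) * ∑ p, (FL B ω).indicator b p) ≤
      Fintype.card (V → Om a) * Real.exp (-(8 * th) * (19 / 20 * rr a * ∑ p, b p)) := by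
  classical
  have hr := rr_pos a
  have hth : th = 1 / 2 ^ 20 := rfl
  have hX0 : ∀ ω : V → Om a, 0 ≤ ∑ p, (FL B ω).indicator b p := fun ω =>
    Finset.sum_nonneg (fun p _ => Set.indicator_nonneg (fun p _ => (hb p).1) p)
  have hX1 : ∀ ω : V → Om a, ∑ p, (FL B ω).indicator b p ≤ 2048 := by
    intro ω
    have e1 : ∑ p, (FL B ω).indicator b p ≤ (({p | B.st p.1 = f} ∩ FL B ω).ncard : ℝ) := by
      rw [ncard_sum]
      refine Finset.sum_le_sum (fun p _ => ?_)
      by_cases hp : B.st p.1 = f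
      · by_cases hp2 : p ∈ FL B ω
        · rw [Set.indicator_of_mem hp2,
            Set.indicator_of_mem (show p ∈ {p : V × Lab | B.st p.1 = f} ∩ FL B ω from ⟨hp, hp2⟩)]
          exact (hb p).2
        · rw [Set.indicator_of_notMem hp2]
          exact Set.indicator_nonneg (fun _ _ => zero_le_one) p
      · have h0 : (FL B ω).indicator b p = 0 := by
          simp only [Set.indicator_apply, hf p hp, ite_self]
        rw [h0]
        exact Set.indicator_nonneg (fun _ _ => zero_le_one) p
    have e2 : ({p : V × Lab | B.st p.1 = f} ∩ FL B ω).ncard ≤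
        {v | B.st v = f ∧ v ∈ pk B ω}.ncard := by
      refine Set.ncard_le_ncard_of_injOn Prod.fst ?_ ?_ (Set.toFinite _)
      · rintro ⟨v, i⟩ ⟨h5, h6, _⟩
        exact ⟨h5, Or.inl h6⟩
      · rintro ⟨v, i⟩ ⟨_, _, h5⟩ ⟨w, j⟩ ⟨_, _, h6⟩ (h7 : v = w)
        subst h7
        exact Prod.ext rfl (h5.symm.trans h6)
    refine e1.trans ?_
    exact_mod_cast e2.trans (h3 V σ a B ω (by omega) hσ f).1
  set c : ℝ := 8 * th * (63 / 64) with hc
  have hexp : (Real.exp (-(8 * th) * 2048) - 1) / 2048 ≤ -c := by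
    have k1 : (-(8 * th) * 2048 : ℝ) = -(1 / 64) := by rw [hth]; norm_num
    have k2 := Real.abs_exp_sub_one_sub_id_le (x := (-(1 / 64) : ℝ)) (by
      rw [abs_of_neg (by norm_num)]; norm_num)
    have k3 := (abs_le.1 k2).2
    rw [k1, hc, hth]
    rw [div_le_iff₀ (by norm_num)]
    norm_num at k3 ⊢
    linarith
  have hpt : ∀ ω : V → Om a, Real.exp (-(8 * th) * ∑ p, (FL B ω).indicator b p) ≤
      1 - c * ∑ p, (FL B ω).indicator b p := by
    intro ω
    have k1 := exp_chord (x := -(8 * th)) (M := 2048) (by norm_num) (hX0 ω) (hX1 ω)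
    have k2 := mul_le_mul_of_nonneg_left hexp (hX0 ω)
    linarith
  have hmean : rr a * Fintype.card (V → Om a) * ∑ p, b p ≤
      ∑ ω : V → Om a, ∑ p, (FL B ω).indicator b p := by
    rw [Finset.sum_comm, Finset.mul_sum]
    refine Finset.sum_le_sum (fun p _ => ?_)
    have k1 : ∑ ω : V → Om a, (FL B ω).indicator b p = ({ω | p ∈ FL B ω}.ncard : ℝ) * b p := by
      rw [ncard_sum, Finset.sum_mul]
      refine Finset.sum_congr rfl (fun ω _ => ?_)
      by_cases hp : p ∈ FL B ω
      · rw [Set.indicator_of_mem hp, Set.indicator_of_mem (show ω ∈ {ω | p ∈ FL B ω} from hp),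
          one_mul]
      · rw [Set.indicator_of_notMem hp,
          Set.indicator_of_notMem (show ω ∉ {ω | p ∈ FL B ω} from hp), zero_mul]
    rw [k1]
    exact mul_le_mul_of_nonneg_right (h2 V σ a B ha hσ p).1 (hb p).1
  have hcpos : 0 ≤ c := by rw [hc, hth]; norm_num
  have hcard : (0 : ℝ) ≤ (Fintype.card (V → Om a) : ℝ) := Nat.cast_nonneg _
  have hS : 0 ≤ ∑ p, b p := Finset.sum_nonneg (fun p _ => (hb p).1)
  calc ∑ ω : V → Om a, Real.exp (-(8 * th) * ∑ p, (FL B ω).indicator b p)
      ≤ ∑ ω : V → Om a, (1 - c * ∑ p, (FL B ω).indicator b p) :=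
        Finset.sum_le_sum fun ω _ => hpt ω
    _ = (Fintype.card (V → Om a) : ℝ) - c * ∑ ω : V → Om a, ∑ p, (FL B ω).indicator b p := by
        rw [Finset.sum_sub_distrib, ← Finset.mul_sum]
        simp
    _ ≤ (Fintype.card (V → Om a) : ℝ) - c * (rr a * Fintype.card (V → Om a) * ∑ p, b p) := by
        linarith [mul_le_mul_of_nonneg_left hmean hcpos]
    _ = (Fintype.card (V → Om a) : ℝ) * (-(c * (rr a * ∑ p, b p)) + 1) := by
        ring
    _ ≤ (Fintype.card (V → Om a) : ℝ) * Real.exp (-(c * (rr a * ∑ p, b p))) :=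
        mul_le_mul_of_nonneg_left (Real.add_one_le_exp _) hcard
    _ ≤ (Fintype.card (V → Om a) : ℝ) * Real.exp (-(8 * th) * (19 / 20 * rr a * ∑ p, b p)) := by
        refine mul_le_mul_of_nonneg_left (Real.exp_le_exp.2 ?_) hcard
        have k2 : (0 : ℝ) ≤ rr a * ∑ p, b p := by positivity
        have k3 : 8 * th * (19 / 20) ≤ c := by rw [hc, hth]; norm_num
        have k4 := mul_le_mul_of_nonneg_right k3 k2
        linarith

theorem conl (h1 : BsumStmt) (h2 : MarfStmt) (h3 : CnbStmt) (h4 : LocStmt) : ConlStmt := by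
  classical
  intro V _ _ σ a B b ha hσ hb
  have hne : Nonempty (Om a) := ⟨(⟨0, by positivity⟩, ⟨0, by positivity⟩, 0)⟩
  have hmain := h1 V (Om a) σ (2 ^ a) B
    (fun v ω => -(th * ∑ i : Lab, (FL B ω).indicator b (v, i)))
    (fun v => -(th * (19 / 20 * rr a * ∑ i : Lab, b (v, i))))
    (Nat.one_le_two_pow) ?_ ?_
  · have e1 : ∀ ω : V → Om a, ∑ v, -(th * ∑ i : Lab, (FL B ω).indicator b (v, i)) =
        -(th * ∑ p, (FL B ω).indicator b p) := by
      intro ω
      rw [Finset.sum_neg_distrib, ← Finset.mul_sum, Fintype.sum_prod_type]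
    have e2 : ∑ v, -(th * (19 / 20 * rr a * ∑ i : Lab, b (v, i))) =
        -(th * (19 / 20 * rr a * ∑ p, b p)) := by
      rw [Finset.sum_neg_distrib, ← Finset.mul_sum, ← Finset.mul_sum, Fintype.sum_prod_type]
    simp only [e1, e2] at hmain
    exact hmain
  · intro v ω ω' hω
    obtain ⟨l1, -, l3, -⟩ := h4 V σ a B ω ω' v (by omega) hω
    have k1 : ∀ i : Lab, (FL B ω).indicator b (v, i) = (FL B ω').indicator b (v, i) := by
      intro i
      have k2 : (v, i) ∈ FL B ω ↔ (v, i) ∈ FL B ω' := by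
        constructor
        · rintro ⟨k3, k4⟩
          exact ⟨l1.1 k3, l3.symm.trans k4⟩
        · rintro ⟨k3, k4⟩
          exact ⟨l1.2 k3, l3.trans k4⟩
      simp only [Set.indicator_apply, k2]
    show -(th * ∑ i : Lab, (FL B ω).indicator b (v, i)) =
      -(th * ∑ i : Lab, (FL B ω').indicator b (v, i))
    rw [Finset.sum_congr rfl (fun i _ => k1 i)]
  · intro f hf
    let bf : V × Lab → ℝ := fun p => if B.st p.1 = f then b p else 0
    have hbf : ∀ p, 0 ≤ bf p ∧ bf p ≤ 1 := by
      intro p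
      show 0 ≤ (if B.st p.1 = f then b p else 0) ∧ (if B.st p.1 = f then b p else 0) ≤ 1
      split_ifs
      · exact hb p
      · exact ⟨le_refl 0, zero_le_one⟩
    have hm := one_block h2 h3 B ha hσ f bf hbf (fun p hp => if_neg hp)
    have e1 : ∀ ω : V → Om a, 8 * ∑ v, {v | B.st v = f}.indicator (fun v =>
        -(th * ∑ i : Lab, (FL B ω).indicator b (v, i))) v =
        -(8 * th) * ∑ p, (FL B ω).indicator bf p := by
      intro ω
      rw [Fintype.sum_prod_type, Finset.mul_sum, Finset.mul_sum]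
      refine Finset.sum_congr rfl fun v _ => ?_
      by_cases hv : B.st v = f
      · have k1 : v ∈ {v | B.st v = f} := hv
        rw [Set.indicator_of_mem k1]
        have k3 : ∑ i : Lab, (FL B ω).indicator bf (v, i) =
            ∑ i : Lab, (FL B ω).indicator b (v, i) := by
          refine Finset.sum_congr rfl fun i _ => ?_
          have k4 : bf (v, i) = b (v, i) := if_pos hv
          simp only [Set.indicator_apply, k4]
        rw [k3]
        ring
      · have k1 : v ∉ {v | B.st v = f} := hv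
        rw [Set.indicator_of_notMem k1]
        have k2 : ∀ i : Lab, (FL B ω).indicator bf (v, i) = 0 := by
          intro i
          have k4 : bf (v, i) = 0 := if_neg hv
          simp only [Set.indicator_apply, k4, ite_self]
        simp only [k2]
        simp
    have e2 : 8 * ∑ v, {v | B.st v = f}.indicator (fun v =>
        -(th * (19 / 20 * rr a * ∑ i : Lab, b (v, i)))) v =
        -(8 * th) * (19 / 20 * rr a * ∑ p, bf p) := by
      rw [Fintype.sum_prod_type, Finset.mul_sum, Finset.mul_sum, Finset.mul_sum]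
      refine Finset.sum_congr rfl fun v _ => ?_
      by_cases hv : B.st v = f
      · have k1 : v ∈ {v | B.st v = f} := hv
        rw [Set.indicator_of_mem k1]
        have k3 : ∑ i : Lab, bf (v, i) = ∑ i : Lab, b (v, i) :=
          Finset.sum_congr rfl fun i _ => if_pos hv
        rw [k3]
        ring
      · have k1 : v ∉ {v | B.st v = f} := hv
        rw [Set.indicator_of_notMem k1]
        have k2 : ∀ i : Lab, bf (v, i) = 0 := fun i => if_neg hv
        simp only [k2]
        simp
    simp only [e1, e2]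
    exact hm

end Pool.Agent.LPY.H76
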