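import Mathlib
import Pool.Agent.Helper48_LPY.Stmts
import Pool.Agent.Helper48_LPY.Basic

/-!
# LPY: MARE, the probability that a node is the tail (head) node of an end
-/

set_option autoImplicit false

namespace Pool.Agent.LPY.H76

open Pool.Agent.LAX Pool.Agent.LPY

/-- Uniformity of two coordinates. -/
lemma cnt {V : Type} [Fintype V] [DecidableEq V] (a : ℕ) (x y : V) (c : Fin (2 ^ (a - 1)))
    (d : Lab) :
    ({ω : V → Om a | (ω x).2.1 = c ∧ (ω y).2.2 = d}.ncard : ℝ) * (2 ^ (a - 1) * 4096) =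
      Fintype.card (V → Om a) := by
  classical
  have key : ∀ z : Fin (2 ^ (a - 1)) × Lab,
      (Finset.univ.filter (fun ω : V → Om a => ((ω x).2.1, (ω y).2.2) = z)).card =
      (Finset.univ.filter (fun ω : V → Om a => ((ω x).2.1, (ω y).2.2) = (c, d))).card := by
    rintro ⟨c', d'⟩
    let F : (V → Om a) ≃ (V → Om a) := Equiv.piCongrRight (fun _ : V =>
      Equiv.prodCongr (Equiv.refl (Fin (2 ^ (a - 5))))
        (Equiv.prodCongr (Equiv.swap c c') (Equiv.swap d d')))
    refine Finset.card_bij (fun ω _ => F ω) ?_ ?_ ?_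
    · intro ω hω
      simp only [Finset.mem_filter, Finset.mem_univ, true_and, Prod.mk.injEq] at hω ⊢
      constructor
      · change Equiv.swap c c' ((ω x).2.1) = c
        rw [hω.1, Equiv.swap_apply_right]
      · change Equiv.swap d d' ((ω y).2.2) = d
        rw [hω.2, Equiv.swap_apply_right]
    · intro ω _ ω' _ h
      exact F.injective h
    · intro ω hω
      simp only [Finset.mem_filter, Finset.mem_univ, true_and, Prod.mk.injEq] at hω
      refine ⟨F ω, ?_, ?_⟩
      · simp only [Finset.mem_filter, Finset.mem_univ, true_and, Prod.mk.injEq]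
        constructor
        · change Equiv.swap c c' ((ω x).2.1) = c'
          rw [hω.1, Equiv.swap_apply_left]
        · change Equiv.swap d d' ((ω y).2.2) = d'
          rw [hω.2, Equiv.swap_apply_left]
      · funext v
        change ((ω v).1, Equiv.swap c c' (Equiv.swap c c' (ω v).2.1),
          Equiv.swap d d' (Equiv.swap d d' (ω v).2.2)) = ω v
        rw [Equiv.swap_apply_self, Equiv.swap_apply_self]
  have hsum : Fintype.card (V → Om a) = ∑ z : Fin (2 ^ (a - 1)) × Lab,
      (Finset.univ.filter (fun ω : V → Om a => ((ω x).2.1, (ω y).2.2) = z)).card := by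
    rw [← Finset.card_univ]
    exact Finset.card_eq_sum_card_fiberwise (fun ω _ => Finset.mem_coe.2 (Finset.mem_univ _))
  rw [Finset.sum_congr rfl (fun z _ => key z)] at hsum
  rw [Finset.sum_const, Finset.card_univ, Fintype.card_prod, Fintype.card_fin, ZMod.card,
    smul_eq_mul] at hsum
  have h1 : {ω : V → Om a | (ω x).2.1 = c ∧ (ω y).2.2 = d}.ncard =
      (Finset.univ.filter (fun ω : V → Om a => ((ω x).2.1, (ω y).2.2) = (c, d))).card := by
    rw [← Set.ncard_coe_finset]
    congr 1
    ext ω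
    simp
  rw [h1, hsum]
  push_cast
  ring

theorem mare : MareStmt := by
  intro V _ _ σ a B ha
  classical
  have hN : ∀ v : V, B.bk v < 2 ^ (a - 1) → ∀ i : Lab,
      ({ω | (v, i) ∈ ET B ω}.ncard : ℝ) = 1 / (2 ^ (a - 1) * 4096) * Fintype.card (V → Om a) ∧
      ({ω | (v, i) ∈ EH B ω}.ncard : ℝ) = 1 / (2 ^ (a - 1) * 4096) * Fintype.card (V → Om a) := by
    intro v hv i
    have h1 : {ω | (v, i) ∈ ET B ω} =
        {ω : V → Om a | (ω (B.st v)).2.1 = ⟨B.bk v, hv⟩ ∧ (ω (B.st v)).2.2 = i} := by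
      ext ω
      change (isEnd B ω v ∧ tl B ω v = i) ↔ _
      unfold isEnd tl
      constructor
      · rintro ⟨h, h'⟩
        refine ⟨Fin.ext h.symm, ?_⟩
        rw [if_pos h.le] at h'
        exact h'
      · rintro ⟨h, h'⟩
        have h2 : B.bk v = ((ω (B.st v)).2.1 : ℕ) := by rw [h]
        refine ⟨h2, ?_⟩
        rw [if_pos h2.le]
        exact h'
    have h2 : {ω | (v, i) ∈ EH B ω} =
        {ω : V → Om a | (ω (B.st v)).2.1 = ⟨B.bk v, hv⟩ ∧ (ω (B.nx v)).2.2 = i} := by
      ext ω
      change (isEnd B ω v ∧ hl B ω v = i) ↔ _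
      unfold isEnd hl
      constructor
      · rintro ⟨h, h'⟩
        refine ⟨Fin.ext h.symm, ?_⟩
        rw [if_neg (by omega)] at h'
        exact h'
      · rintro ⟨h, h'⟩
        have h2 : B.bk v = ((ω (B.st v)).2.1 : ℕ) := by rw [h]
        refine ⟨h2, ?_⟩
        rw [if_neg (by omega)]
        exact h'
    have hp : (0 : ℝ) < 2 ^ (a - 1) * 4096 := by positivity
    rw [h1, h2]
    constructor
    · rw [← cnt a (B.st v) (B.st v) ⟨B.bk v, hv⟩ i]
      field_simp
    · rw [← cnt a (B.st v) (B.nx v) ⟨B.bk v, hv⟩ i]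
      field_simp
  have hZ : ∀ v : V, ¬ B.bk v < 2 ^ (a - 1) → ∀ ω : V → Om a, ¬ isEnd B ω v := by
    intro v hv ω h
    apply hv
    have h' : B.bk v = ((ω (B.st v)).2.1 : ℕ) := h
    rw [h']
    exact (ω (B.st v)).2.1.isLt
  have hU : ∀ (v : V), ({ω | isEnd B ω v}.ncard : ℝ) = ∑ i : Lab, ({ω | (v, i) ∈ ET B ω}.ncard : ℝ) := by
    intro v
    have h1 : {ω | isEnd B ω v}.ncard =
        (Finset.univ.filter (fun ω : V → Om a => isEnd B ω v)).card := by
      rw [← Set.ncard_coe_finset]
      congr 1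
      ext ω
      simp
    have h2 : ∀ i : Lab, {ω | (v, i) ∈ ET B ω}.ncard =
        ((Finset.univ.filter (fun ω : V → Om a => isEnd B ω v)).filter
          (fun ω => tl B ω v = i)).card := by
      intro i
      rw [← Set.ncard_coe_finset]
      congr 1
      ext ω
      simp [ET]
    rw [h1, Finset.card_eq_sum_card_fiberwise (f := fun ω => tl B ω v) (t := Finset.univ)
      (fun ω _ => Finset.mem_coe.2 (Finset.mem_univ _)), Nat.cast_sum]
    exact Finset.sum_congr rfl (fun i _ => by rw [h2 i])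
  refine ⟨fun v => if B.bk v < 2 ^ (a - 1) then 1 / (2 ^ (a - 1) * 4096) else 0, fun v => ?_⟩
  by_cases hv : B.bk v < 2 ^ (a - 1)
  · simp only [if_pos hv]
    refine ⟨by positivity, ?_, ?_, hN v hv⟩
    · unfold rr
      obtain ⟨b, rfl⟩ : ∃ b, a = b + 1 := ⟨a - 1, by omega⟩
      have h1 : (2 : ℝ) ^ (b + 1 + 10) = 2 ^ b * 2048 := by rw [pow_add, pow_add]; norm_num; ring
      rw [h1, Nat.add_sub_cancel]
      have h2 : (0 : ℝ) < 2 ^ b := by positivity
      rw [div_div, div_le_div_iff₀ (by positivity) (by positivity)]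
      nlinarith
    · rw [hU v, Finset.sum_congr rfl (fun i _ => (hN v hv i).1), Finset.sum_const,
        Finset.card_univ, ZMod.card, nsmul_eq_mul]
      push_cast
      ring
  · simp only [if_neg hv]
    refine ⟨le_refl 0, by have := rr_pos a; linarith, ?_, fun i => ⟨?_, ?_⟩⟩
    · rw [show {ω | isEnd B ω v} = ∅ from Set.eq_empty_of_forall_notMem (fun ω h => hZ v hv ω h)]
      simp
    · rw [show {ω | (v, i) ∈ ET B ω} = ∅ from
        Set.eq_empty_of_forall_notMem (fun ω h => hZ v hv ω h.1)]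
      simp
    · rw [show {ω | (v, i) ∈ EH B ω} = ∅ from
        Set.eq_empty_of_forall_notMem (fun ω h => hZ v hv ω h.1)]
      simp

end Pool.Agent.LPY.H76
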